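import Pool.Agent.H364Z.Cone

set_option autoImplicit false

open Real Filter Topology

namespace Pool.Agent.Results.MP_1623fe_an.Transversal

/-- the rotation number of `φ' = (1/ω)(-sin φ + B + A cos τ)` is `r` -/
def HasRot (ω B A r : ℝ) : Prop :=
  ∃ φ : ℝ → ℝ, (∀ τ, HasDerivAt φ (1 / ω * (-sin (φ τ) + B + A * cos τ)) τ) ∧
    Tendsto (fun τ => φ τ / τ) atTop (𝓝 r)

/-- left boundary function of the phase-lock area number `r` -/
noncomputable def gMinus (ω : ℝ) (r : ℤ) (A : ℝ) : ℝ := sInf {B | HasRot ω B A r}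

/-- right boundary function of the phase-lock area number `r` -/
noncomputable def gPlus (ω : ℝ) (r : ℤ) (A : ℝ) : ℝ := sSup {B | HasRot ω B A r}

theorem result (ω : ℝ) (hω : 0 < ω) (r : ℤ) (B₀ A₀ : ℝ) (hA : A₀ ≠ 0)
    (h₁ : gMinus ω r A₀ = B₀) (h₂ : gPlus ω r A₀ = B₀) :
    ∃ ε : ℝ, 0 < ε ∧ ∀ᶠ A in 𝓝 A₀,
      gMinus ω r A ≤ B₀ - ε * |A - A₀| ∧ B₀ + ε * |A - A₀| ≤ gPlus ω r A := by
  simp only [gMinus, gPlus, HasRot, H364Z.rot_tau hω] at *
  exact H364Z.area_cone hω r hA h₁ h₂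

end Pool.Agent.Results.MP_1623fe_an.Transversal
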